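import Pool.Agent.Helper75.OE.GoalsB2

set_option autoImplicit false

namespace Pool.Agent.Helper64.OE

open Pool.Agent.Helper73.OE Pool.Agent.Helper75.OE

theorem nbr (h1 : B_AT) : B_NBR := by
  intro H S L _ X O f e z p' y' hMA hSym hO hAt hz ho
  obtain ⟨a1, a2, a3, a4, -, a6⟩ := h1 H S L X O f (X.nb e.1 e.2) (X.bar e.2)
    (X.tau (f e.1 e.2))
  have hO' : ¬ O (X.nb e.1 e.2) (X.bar e.2) := fun h => hO ((hSym e.1 e.2).mpr h)
  have hy : X.tau (f e.1 e.2) ≠ f (X.nb e.1 e.2) (X.bar e.2) := fun h =>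
    hz (a6 hO' h z p' y' hAt)
  have hy' := a4 hMA hy z p' y' hAt
  refine ⟨?_, ?_, ?_⟩
  · intro h
    apply hy'
    rw [← h, Equiv.apply_symm_apply]
  · rcases a3 z p' y' hAt with ⟨h, -, -⟩ | ⟨z1, p1, y1, h2, -, h3, h4, -⟩
    · exact absurd h hz
    · have h5 : X.nb z p' = z1 := by
        rw [h3, h4, X.nb_bar]
      rw [h5, a1]
      exact ⟨p1, y1, h2⟩
  · rw [a1]
    exact ⟨_, _, a2 z p' y' hAt ho⟩

end Pool.Agent.Helper64.OE
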